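import Pool.Agent.Y600.FB.Stm4

/-!
Task FB-EX4 for helper600 (helper217): the search with oracle algorithms succeeds
(adapted from helper459's FB-SEARCH and from `exists_W1`, `poly_isFP_empty`).
-/

set_option autoImplicit false

namespace Pool.Agent.Y217.FB

open Function Pool.Agent.NPC Pool.Agent.H660R2.NX Pool.Agent.H593R3.FBC Pool.Agent.Y600.FB
open Pool.Agent.H639R2.NTP (exists_pow_bound)
open Pool.Agent.H639R2.NTP.C5 (allL mem_allL)

attribute [local irreducible] unpair

theorem decide_KS (s v : List Bool) [Decidable (KS s v)] :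
    decide (KS s v) = dK s (decK v) := by
  have h : KS s v ↔ dK s (decK v) = true := (KS_iff s v (decK_length v)).trans (dK_iff s _)
  cases hb : dK s (decK v) with
  | true => exact decide_eq_true (h.2 hb)
  | false =>
    refine decide_eq_false fun hh => ?_
    rw [h.1 hh] at hb
    cases hb

theorem stT_eq (z : List Bool) (k : ℕ) (s y a : List Bool) : stT z k s y a =
    if (FU z k (pairBits y a)).head? = some false then
      a ++ [dK s (decK (FU z k (pairBits y a)).tail)] else a := by
  unfold stT
  split_ifs
  · rw [decide_KS]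
  · rfl

theorem length_anT (z : List Bool) (k : ℕ) (s y : List Bool) :
    ∀ n, ((stT z k s y)^[n] []).length ≤ n
  | 0 => by simp
  | n + 1 => by
    rw [Function.iterate_succ_apply']
    have ih := length_anT z k s y n
    rw [stT_eq]
    split_ifs
    · simp only [List.length_append, List.length_singleton]
      omega
    · omega

theorem poly_step (z : List Bool) (k : ℕ) (s : List Bool) :
    Poly (fun p : List Bool × List Bool => stT z k s p.1 p.2) := by
  have hx : Poly (fun p : List Bool × List Bool => FU z k (pairBits p.1 p.2)) :=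
    (poly_FU z k).comp (poly_pairBits (NPC.Poly.fst NPC.Poly.id) (NPC.Poly.snd NPC.Poly.id))
  have h1 : Poly (fun p : List Bool × List Bool =>
      dK s (decK (FU z k (pairBits p.1 p.2)).tail)) :=
    (poly_dK s).comp (poly_decK.comp (NPC.Poly.tail hx))
  have h2 : Poly (fun p : List Bool × List Bool =>
      [dK s (decK (FU z k (pairBits p.1 p.2)).tail)]) :=
    NPC.Poly.cons h1 (NPC.Poly.const [])
  refine (NPC.Poly.ite (NPC.Poly.decide_eq (NPC.Poly.head? hx) (NPC.Poly.const (some false)))
    (NPC.Poly.append (NPC.Poly.snd NPC.Poly.id) h2) (NPC.Poly.snd NPC.Poly.id)).congr fun p => ?_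
  exact (stT_eq z k s p.1 p.2).symm

theorem poly_sim (z : List Bool) (k : ℕ) (s : List Bool) :
    Poly (fun y : List Bool => FU z k (pairBits y (anT z k s y (y.length ^ k + k)))) := by
  have hk : UPoly (fun x : List Bool => x.length ^ k + k) := by
    refine ((UPoly.length NPC.Poly.id).eval (Polynomial.X ^ k + Polynomial.C k)).congr
      fun x => by simp
  have h : Poly (fun y : List Bool => (stT z k s y)^[y.length ^ k + k] []) := by
    refine poly_iterU (n := fun y : List Bool => y.length ^ k + k)
      (s := fun _ => ([] : List Bool)) (F := fun y => stT z k s y) hk (NPC.Poly.const _)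
      (poly_step z k s) (4 * (Polynomial.X ^ k + Polynomial.C k) + 1) ?_
    intro y j hj
    have h1 := length_anT z k s y j
    have h2 := sz_listBool_le ((stT z k s y)^[j] [])
    have h3 : y.length ^ k ≤ sz y ^ k := Nat.pow_le_pow_left (length_lt_sz y).le k
    simp only [Polynomial.eval_add, Polynomial.eval_mul, Polynomial.eval_ofNat,
      Polynomial.eval_pow, Polynomial.eval_X, Polynomial.eval_C, Polynomial.eval_one]
    omega
  exact (poly_FU z k).comp (poly_pairBits NPC.Poly.id h)

theorem exists_W4 (hP : PNeNP) (x : ℕ) (z s : List Bool) :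
    ∃ v : ℕ, ∀ᶠ N in Filter.atTop, W4 x z s (str v) N := by
  by_contra hcon'
  have hcon : ∀ v : ℕ, ¬ _ := fun v hv => hcon' ⟨v, hv⟩
  obtain ⟨L, hL, hL'⟩ := hP
  apply hL'
  obtain ⟨f, hf, hpr, hfL⟩ := hardPr_SAT3b L hL
  have h1 : ∀ p : F3 × List Unit, Bounded3 p.1 → x ≤ nn p →
      (FU z x (pairBits (bits (gI p)) (anT z x s (bits (gI p)) ((bits (gI p)).length ^ x + x))) =
        [true, true] ↔ SAT3 p.1) := by
    intro p hb hx
    by_contra h
    apply hcon (Encodable.encode (bits p))
    rw [str_encode]
    filter_upwards [Filter.eventually_gt_atTop (nn p), Filter.eventually_gt_atTop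
      (∑ i ∈ Finset.range ((bits (gI p)).length ^ x + x),
        (nsL (decK (FU z x (pairBits (bits (gI p)) (anT z x s (bits (gI p)) i))).tail)).sum)]
      with N hN1 hN
    unfold W4
    rw [decF_bits, bdB_iff, ← sat_iff hb]
    refine ⟨hb, hx, hN1, fun i hi => ?_, by tauto⟩
    rw [nsB_iff]
    intro n hn
    have h2 := List.single_le_sum
      (l := nsL (decK (FU z x (pairBits (bits (gI p)) (anT z x s (bits (gI p)) i))).tail))
      (by simp) n hn
    have h3 := Finset.single_le_sum (f := fun i =>
      (nsL (decK (FU z x (pairBits (bits (gI p)) (anT z x s (bits (gI p)) i))).tail)).sum)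
      (fun j _ => Nat.zero_le _) (Finset.mem_range.2 (List.mem_range.1 hi))
    omega
  have h2 : Poly (fun φ : F3 => gI (φ, List.replicate x ())) :=
    poly_gI.comp (NPC.Poly.pair NPC.Poly.id (NPC.Poly.const _))
  have h3 : PolyTime (fun y => bits (gI (f y, List.replicate x ()))) :=
    PC.toPolyTime_bits h2 f hf
  have h4 : Poly (fun y : List Bool =>
      decide (FU z x (pairBits y (anT z x s y (y.length ^ x + x))) = [true, true])) :=
    NPC.Poly.decide_eq (poly_sim z x s) (NPC.Poly.const _)
  refine ⟨_, H642R2.TMSim.polyTime_comp (polyTime_of_poly h4) h3, fun y => ?_⟩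
  rw [hfL y, ← h1 (f y, List.replicate x ()) (hpr y).2.1 (by simp [nn])]
  simp

theorem t_EX4 : Pool.Agent.Y600.FB.S_EX4 := by
  intro hP x
  have h2 : ∀ᶠ N in Filter.atTop, ∀ j ∈ (List.range x).toFinset, ∀ s ∈ (allL x).toFinset,
      ∃ v ∈ List.range N, W4 x (str j) s (str v) N := by
    rw [Filter.eventually_all_finset]
    intro j _
    rw [Filter.eventually_all_finset]
    intro s _
    obtain ⟨v, hv⟩ := exists_W4 hP x (str j) s
    filter_upwards [hv, Filter.eventually_gt_atTop v] with N h1 h2
    exact ⟨v, List.mem_range.2 h2, h1⟩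
  obtain ⟨N, h4⟩ := h2.exists
  exact ⟨N, fun j hj s hs => h4 j (List.mem_toFinset.2 hj) s (List.mem_toFinset.2 hs)⟩

end Pool.Agent.Y217.FB
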